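import Mathlib

namespace Pool.Agent.Results.MP_56939f_al.AllUndecidable

/-- Letters over `A ∪ A⁻¹`: `(a, false)` is `a` and `(a, true)` is `a⁻¹`. -/
abbrev Letter (A : Type) := A × Bool

section general

variable {M : Type} [Monoid M] {A : Type}

/-- `y` is an inverse of `x` (in the sense of semigroup theory). -/
def IsInv (x y : M) : Prop := x * y * x = x ∧ y * x * y = y

/-- `M` is an inverse monoid. -/
def IsInverseMonoid (M : Type) [Monoid M] : Prop := ∀ x : M, ∃! y : M, IsInv x y

/-- The element of `M` represented by a word. -/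
def val (ι : Letter A → M) (w : List (Letter A)) : M := (w.map ι).prod

/-- `M` is generated, as an inverse monoid, by `A`. -/
def Generates (ι : Letter A → M) : Prop :=
  (∀ a, IsInv (ι (a, false)) (ι (a, true))) ∧ ∀ x : M, ∃ w, val ι w = x

/-- Edges of the Cayley graph. -/
def Edge (ι : Letter A → M) (s t : M) : Prop := ∃ x, t = s * ι x

/-- The strongly connected component of `s` in the Cayley graph. -/
def Comp (ι : Letter A → M) (s : M) : Set M :=
  {t | Relation.ReflTransGen (Edge ι) s t ∧ Relation.ReflTransGen (Edge ι) t s}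

/-- The Schützenberger graph of `s` (as a simple graph: loops, labels and multiple edges do not
matter for the path metric). -/
def schutz (ι : Letter A → M) (s : M) : SimpleGraph (Comp ι s) where
  Adj t t' := t ≠ t' ∧ (Edge ι t.1 t'.1 ∨ Edge ι t'.1 t.1)
  symm := ⟨fun _ _ h => ⟨h.1.symm, h.2.symm⟩⟩
  loopless := ⟨fun _ h => h.1 rfl⟩

/-- Quasi-isometry of graphs with their path metrics. -/
def QuasiIsometric {V W : Type} (G : SimpleGraph V) (T : SimpleGraph W) : Prop :=
  ∃ (f : V → W) (C : ℕ), (∀ x y, T.dist (f x) (f y) ≤ C * G.dist x y + C) ∧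
    (∀ x y, G.dist x y ≤ C * T.dist (f x) (f y) + C) ∧ ∀ z, ∃ x, T.dist z (f x) ≤ C

/-- Every Schützenberger graph is (connected and) quasi-isometric to a tree. -/
def TreeLike (ι : Letter A → M) : Prop :=
  ∀ s, (schutz ι s).Connected ∧
    ∃ (W : Type) (T : SimpleGraph W), T.IsTree ∧ QuasiIsometric (schutz ι s) T

/-- A finite automaton over `A ∪ A⁻¹`: transitions, initial states, final states. -/
abbrev Aut (A : Type) := List (ℕ × Letter A × ℕ) × List ℕ × List ℕ

/-- Runs of an automaton. -/
inductive Run (δ : List (ℕ × Letter A × ℕ)) : ℕ → List (Letter A) → ℕ → Prop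
  | nil (q : ℕ) : Run δ q [] q
  | cons {p q r : ℕ} {x : Letter A} {w : List (Letter A)} :
      (p, x, q) ∈ δ → Run δ q w r → Run δ p (x :: w) r

/-- The automaton accepts the word. -/
def Accepts (N : Aut A) (w : List (Letter A)) : Prop :=
  ∃ i ∈ N.2.1, ∃ f ∈ N.2.2, Run N.1 i w f

/-- Word problem. -/
def WordProblem (ι : Letter A → M) (p : List (Letter A) × List (Letter A)) : Prop :=
  val ι p.1 = val ι p.2

/-- Rational subset membership. -/
def RationalMem (ι : Letter A → M) (p : Aut A × List (Letter A)) : Prop :=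
  ∃ u, Accepts p.1 u ∧ val ι u = val ι p.2

/-- The elements represented by the words of a finite list. -/
def gens (ι : Letter A → M) (X : List (List (Letter A))) : Set M := {x | ∃ w ∈ X, val ι w = x}

/-- Submonoid membership. -/
def SubmonoidMem (ι : Letter A → M) (p : List (List (Letter A)) × List (Letter A)) : Prop :=
  val ι p.2 ∈ Submonoid.closure (gens ι p.1)

/-- Closed under inverses. -/
def InvClosed (S : Submonoid M) : Prop := ∀ x ∈ S, ∀ y, IsInv x y → y ∈ S

/-- Inverse submonoid membership: the element lies in every inverse submonoid containing `X`. -/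
def InverseSubmonoidMem (ι : Letter A → M) (p : List (List (Letter A)) × List (Letter A)) :
    Prop :=
  ∀ S : Submonoid M, InvClosed S → gens ι p.1 ⊆ S → val ι p.2 ∈ S

/-- The natural partial order: `s ≤ t` iff `s = e t` for an idempotent `e`. -/
def NatLE (s t : M) : Prop := ∃ e, e * e = e ∧ s = e * t

/-- Closed upwards in the natural partial order. -/
def UpClosed (S : Submonoid M) : Prop := ∀ h ∈ S, ∀ m, NatLE h m → m ∈ S

/-- Closed inverse submonoid membership: the element lies in every closed inverse submonoid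
containing `X`. -/
def ClosedInverseSubmonoidMem (ι : Letter A → M)
    (p : List (List (Letter A)) × List (Letter A)) : Prop :=
  ∀ S : Submonoid M, InvClosed S → UpClosed S → gens ι p.1 ⊆ S → val ι p.2 ∈ S

end general

/-! ### The model -/

abbrev L := Letter Bool

def dl : L → ℤ × ℤ
  | (false, false) => (1, 0)
  | (false, true) => (-1, 0)
  | (true, false) => (0, 1)
  | (true, true) => (0, -1)

def flip (x : L) : L := (x.1, !x.2)

lemma dl_flip (x : L) : dl (flip x) = - dl x := by
  obtain ⟨a, b⟩ := x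
  cases a <;> cases b <;> rfl

def disp : List L → ℤ × ℤ
  | [] => 0
  | x :: w => dl x + disp w

def vis : List L → Set (ℤ × ℤ)
  | [] => {0}
  | x :: w => {p | p = 0 ∨ p - dl x ∈ vis w}

def HH (m s : ℕ) : Prop :=
  (Nat.Partrec.Code.evaln (s + 1) (Denumerable.ofNat Nat.Partrec.Code m) 0).isSome = true

def Bad (V : Set (ℤ × ℤ)) : Prop := ∃ m s : ℕ, ∃ x y : ℤ, HH m s ∧
  (∀ k : ℕ, k ≤ m + 1 → (x, y + k) ∈ V) ∧ (x + 1, y + (m + 1)) ∈ V ∧
  (∀ k : ℕ, k ≤ 3 * (s + 1) → (x + k, y) ∈ V) ∧ (x + 3 * (s + 1), y - 1) ∈ V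

lemma Bad.shift {V W : Set (ℤ × ℤ)} (d : ℤ × ℤ) (h : ∀ p ∈ V, p + d ∈ W) (hV : Bad V) :
    Bad W := by
  obtain ⟨m, s, x, y, h1, h2, h3, h4, h5⟩ := hV
  refine ⟨m, s, x + d.1, y + d.2, h1, fun k hk => ?_, ?_, fun k hk => ?_, ?_⟩
  · have := h _ (h2 k hk)
    convert this using 1
    ext <;> simp <;> ring
  · have := h _ h3
    convert this using 1
    ext <;> simp <;> ring
  · have := h _ (h4 k hk)
    convert this using 1
    ext <;> simp <;> ring
  · have := h _ h5
    convert this using 1
    ext <;> simp <;> ring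

lemma Bad.mono {V W : Set (ℤ × ℤ)} (h : V ⊆ W) (hV : Bad V) : Bad W :=
  hV.shift 0 (fun p hp => by simpa using h hp)

lemma zero_mem_vis (w : List L) : (0 : ℤ × ℤ) ∈ vis w := by
  cases w with
  | nil => rfl
  | cons x w => exact Or.inl rfl

lemma disp_append (u v : List L) : disp (u ++ v) = disp u + disp v := by
  induction u with
  | nil => simp [disp]
  | cons x u ih => simp only [List.cons_append, disp, ih]; abel

lemma vis_append (u v : List L) (p : ℤ × ℤ) :
    p ∈ vis (u ++ v) ↔ p ∈ vis u ∨ p - disp u ∈ vis v := by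
  induction u generalizing p with
  | nil =>
    simp only [List.nil_append, disp, sub_zero]
    constructor
    · exact Or.inr
    · rintro (h | h)
      · have : p = 0 := h
        rw [this]
        exact zero_mem_vis v
      · exact h
  | cons x u ih =>
    show (p = 0 ∨ p - dl x ∈ vis (u ++ v)) ↔ (p = 0 ∨ p - dl x ∈ vis u) ∨ p - (dl x + disp u) ∈ vis v
    rw [ih, or_assoc, sub_sub]

lemma disp_mem_vis (w : List L) : disp w ∈ vis w := by
  induction w with
  | nil => rfl
  | cons x w ih => exact Or.inr (by simpa [disp] using ih)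

lemma vis_finite (w : List L) : (vis w).Finite := by
  induction w with
  | nil => exact Set.finite_singleton _
  | cons x w ih =>
    refine ((Set.finite_singleton 0).union (ih.image (fun p => p + dl x))).subset ?_
    rintro p (h | h)
    · exact Or.inl h
    · exact Or.inr ⟨_, h, by simp⟩

def wi (w : List L) : List L := (w.map flip).reverse

lemma wi_cons (x : L) (w : List L) : wi (x :: w) = wi w ++ [flip x] := by
  simp [wi]

lemma disp_wi (w : List L) : disp (wi w) = - disp w := by
  induction w with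
  | nil => simp [wi, disp]
  | cons x w ih =>
    rw [wi_cons, disp_append, ih]
    simp only [disp, dl_flip]
    abel

lemma vis_wi (w : List L) (p : ℤ × ℤ) : p ∈ vis (wi w) ↔ p + disp w ∈ vis w := by
  induction w generalizing p with
  | nil => simp [wi, disp]
  | cons x w ih =>
    rw [wi_cons, vis_append, ih, disp_wi]
    have h1 : (p - - disp w ∈ vis [flip x]) ↔ (p + disp w = 0 ∨ p + disp w + dl x = 0) := by
      show (p - - disp w = 0 ∨ p - - disp w - dl (flip x) = 0) ↔ _
      rw [dl_flip, sub_neg_eq_add, sub_neg_eq_add]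
    rw [h1]
    show _ ↔ (p + (dl x + disp w) = 0 ∨ p + (dl x + disp w) - dl x ∈ vis w)
    have e1 : p + (dl x + disp w) = p + disp w + dl x := by abel
    have e2 : p + (dl x + disp w) - dl x = p + disp w := by abel
    rw [e2, e1]
    constructor
    · rintro (h | h | h)
      · exact Or.inr h
      · right
        rw [h]
        exact zero_mem_vis w
      · exact Or.inl h
    · rintro (h | h)
      · exact Or.inr (Or.inr h)
      · exact Or.inl h

def rel (u v : List L) : Prop :=
  (Bad (vis u) ∧ Bad (vis v)) ∨ (vis u = vis v ∧ disp u = disp v)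

lemma bad_left {u v : List L} (h : Bad (vis u)) : Bad (vis (u ++ v)) :=
  h.mono (fun p hp => (vis_append u v p).2 (Or.inl hp))

lemma bad_right {u v : List L} (h : Bad (vis v)) : Bad (vis (u ++ v)) :=
  h.shift (disp u) (fun p hp => (vis_append u v _).2 (Or.inr (by simpa using hp)))

def con : Con (FreeMonoid L) where
  r := fun u v => rel u.toList v.toList
  iseqv := by
    refine ⟨fun u => Or.inr ⟨rfl, rfl⟩, ?_, ?_⟩
    · rintro u v (h | h)
      · exact Or.inl ⟨h.2, h.1⟩
      · exact Or.inr ⟨h.1.symm, h.2.symm⟩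
    · rintro u v w (h | h) (h' | h')
      · exact Or.inl ⟨h.1, h'.2⟩
      · exact Or.inl ⟨h.1, h'.1 ▸ h.2⟩
      · exact Or.inl ⟨h.1.symm ▸ h'.1, h'.2⟩
      · exact Or.inr ⟨h.1.trans h'.1, h.2.trans h'.2⟩
  mul' := by
    intro u u' v v' h h'
    show rel (u.toList ++ v.toList) (u'.toList ++ v'.toList)
    rcases h with h | h
    · exact Or.inl ⟨bad_left h.1, bad_left h.2⟩
    · rcases h' with h' | h'
      · exact Or.inl ⟨bad_right h'.1, bad_right h'.2⟩
      · refine Or.inr ⟨?_, ?_⟩
        · ext p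
          rw [vis_append, vis_append, h.1, h.2, h'.1]
        · rw [disp_append, disp_append, h.2, h'.2]

abbrev M := con.Quotient

def mk (w : List L) : M := ((FreeMonoid.ofList w : FreeMonoid L) : con.Quotient)

lemma mk_eq {u v : List L} : mk u = mk v ↔ rel u v := Con.eq con

lemma mk_mul (u v : List L) : mk u * mk v = mk (u ++ v) := rfl

lemma mk_nil : mk [] = 1 := rfl

lemma exists_mk (x : M) : ∃ w, mk w = x := by
  induction x using Con.induction_on with
  | H w => exact ⟨w.toList, rfl⟩

def ι (x : L) : M := mk [x]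

lemma val_eq (w : List L) : val ι w = mk w := by
  induction w with
  | nil => rfl
  | cons x w ih =>
    show (List.map ι (x :: w)).prod = _
    rw [List.map_cons, List.prod_cons]
    show mk [x] * val ι w = _
    rw [ih, mk_mul]
    rfl

lemma vis_uiu (u : List L) : vis (u ++ wi u ++ u) = vis u := by
  ext p
  rw [vis_append, vis_append, vis_wi, disp_append, disp_wi]
  simp

lemma disp_uiu (u : List L) : disp (u ++ wi u ++ u) = disp u := by
  rw [disp_append, disp_append, disp_wi]; simp

lemma wi_wi (u : List L) : wi (wi u) = u := by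
  have : flip ∘ flip = id := by
    funext x
    obtain ⟨a, b⟩ := x
    simp [flip]
  simp [wi, List.map_reverse, this]

lemma inv_mk (u : List L) : IsInv (mk u) (mk (wi u)) := by
  constructor
  · rw [mk_mul, mk_mul, mk_eq]
    exact Or.inr ⟨vis_uiu u, disp_uiu u⟩
  · rw [mk_mul, mk_mul, mk_eq]
    have h1 := vis_uiu (wi u)
    have h2 := disp_uiu (wi u)
    rw [wi_wi] at h1 h2
    exact Or.inr ⟨h1, h2⟩

lemma inv_unique {u v : List L} (h : IsInv (mk u) (mk v)) : mk v = mk (wi u) := by
  obtain ⟨h1, h2⟩ := h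
  rw [mk_mul, mk_mul, mk_eq] at h1 h2
  rw [mk_eq]
  rcases h1 with h1 | h1
  · rcases h2 with h2 | h2
    · refine Or.inl ⟨h2.2, ?_⟩
      exact h1.2.shift (-disp u) (fun p hp => by rw [vis_wi]; simpa using hp)
    · left
      refine ⟨?_, h1.2.shift (-disp u) (fun p hp => by rw [vis_wi]; simpa using hp)⟩
      rw [← h2.1]
      exact bad_left (bad_right h1.2)
  · rcases h2 with h2 | h2
    · left
      have hu : Bad (vis u) := by
        rw [← h1.1]
        exact bad_left (bad_right h2.2)
      exact ⟨h2.2, hu.shift (-disp u) (fun p hp => by rw [vis_wi]; simpa using hp)⟩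
    · right
      have hd : disp v = - disp u := by
        have := h1.2
        rw [disp_append, disp_append] at this
        have h3 : disp u + disp v = 0 := by
          have : disp u + disp v + disp u = 0 + disp u := by rw [this]; simp
          exact add_right_cancel this
        exact (neg_eq_of_add_eq_zero_right h3).symm
      refine ⟨?_, by rw [disp_wi, hd]⟩
      ext p
      rw [vis_wi]
      constructor
      · intro hp
        have : p + disp u ∈ vis (u ++ v ++ u) := by
          rw [vis_append, vis_append]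
          left; right
          simpa using hp
        rwa [h1.1] at this
      · intro hp
        have : p ∈ vis (v ++ u ++ v) := by
          rw [vis_append, vis_append, hd]
          left; right
          simpa using hp
        rwa [h2.1] at this

theorem isInverse : IsInverseMonoid M := by
  intro x
  obtain ⟨u, rfl⟩ := exists_mk x
  refine ⟨mk (wi u), inv_mk u, ?_⟩
  intro y hy
  obtain ⟨v, rfl⟩ := exists_mk y
  exact inv_unique hy

theorem generates : Generates ι := by
  refine ⟨fun a => ?_, fun x => ?_⟩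
  · exact inv_mk [(a, false)]
  · obtain ⟨w, rfl⟩ := exists_mk x
    exact ⟨w, val_eq w⟩

/-! ### Components -/

lemma reach_iff {M A : Type} [Monoid M] (ι : Letter A → M) (s t : M) :
    Relation.ReflTransGen (Edge ι) s t ↔ ∃ w, t = s * val ι w := by
  constructor
  · intro h
    induction h with
    | refl => exact ⟨[], by simp [val]⟩
    | tail _ h ih =>
      obtain ⟨w, rfl⟩ := ih
      obtain ⟨x, rfl⟩ := h
      exact ⟨w ++ [x], by simp [val, mul_assoc]⟩
  · rintro ⟨w, rfl⟩
    induction w generalizing s with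
    | nil => simp [val]; exact Relation.ReflTransGen.refl
    | cons x w ih =>
      have := ih (s * ι x)
      refine Relation.ReflTransGen.head ⟨x, rfl⟩ ?_
      simpa [val, mul_assoc] using this

lemma comp_finite (s : M) : (Comp ι s).Finite := by
  obtain ⟨u, rfl⟩ := exists_mk s
  by_cases hb : Bad (vis u)
  · refine (Set.finite_singleton (mk u)).subset ?_
    rintro t ⟨h, -⟩
    rw [reach_iff] at h
    obtain ⟨w, rfl⟩ := h
    rw [val_eq, mk_mul]
    exact (mk_eq.2 (Or.inl ⟨bad_left hb, hb⟩))
  · classical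
    refine ((vis_finite u).image (fun p => if h : ∃ v, vis (u ++ v) = vis u ∧ disp (u ++ v) = p
      then mk (u ++ h.choose) else mk u)).subset ?_
    rintro t ⟨h, h'⟩
    rw [reach_iff] at h h'
    obtain ⟨v, rfl⟩ := h
    obtain ⟨w, h'⟩ := h'
    rw [val_eq, val_eq, mk_mul, mk_mul, mk_eq] at h'
    rcases h' with h' | h'
    · exact absurd h'.1 hb
    · have hv : vis (u ++ v) = vis u := by
        apply Set.Subset.antisymm
        · rw [h'.1]
          intro p hp
          exact (vis_append _ _ _).2 (Or.inl hp)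
        · intro p hp
          exact (vis_append _ _ _).2 (Or.inl hp)
      refine ⟨disp (u ++ v), ?_, ?_⟩
      · rw [← hv]; exact disp_mem_vis _
      · have hex : ∃ v', vis (u ++ v') = vis u ∧ disp (u ++ v') = disp (u ++ v) := ⟨v, hv, rfl⟩
        simp only [dif_pos hex]
        rw [val_eq, mk_mul, mk_eq]
        exact Or.inr ⟨hex.choose_spec.1.trans hv.symm, hex.choose_spec.2⟩

/-- In general: strongly connected components are connected. -/
lemma schutz_connected {M A : Type} [Monoid M] (ι : Letter A → M) (s : M) :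
    (schutz ι s).Connected := by
  have key : ∀ t (h : t ∈ Comp ι s), (schutz ι s).Reachable ⟨s, .refl, .refl⟩ ⟨t, h⟩ := by
    intro t h
    obtain ⟨h1, h2⟩ := h
    induction h1 with
    | refl => exact SimpleGraph.Reachable.refl _
    | @tail b c h3 h4 ih =>
      have hb : b ∈ Comp ι s := ⟨h3, (Relation.ReflTransGen.single h4).trans h2⟩
      have := ih hb.2
      by_cases hbc : b = c
      · subst hbc
        exact this
      · refine this.trans (SimpleGraph.Adj.reachable ?_)
        refine ⟨fun h => hbc (congrArg Subtype.val h), Or.inl h4⟩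
  have : Nonempty (Comp ι s) := ⟨⟨s, .refl, .refl⟩⟩
  exact ⟨fun x y => (key x.1 x.2).symm.trans (key y.1 y.2)⟩

theorem treeLike : TreeLike ι := by
  intro s
  refine ⟨schutz_connected ι s, Unit, ⊥, ?_, ?_⟩
  · exact SimpleGraph.IsTree.of_subsingleton
  · have : Finite (Comp ι s) := (comp_finite s).to_subtype
    have := Fintype.ofFinite (Comp ι s)
    obtain ⟨C, hC⟩ : ∃ C : ℕ, ∀ x y, (schutz ι s).dist x y ≤ C := by
      refine ⟨∑ x, ∑ y, (schutz ι s).dist x y, fun x y => ?_⟩
      calc (schutz ι s).dist x y ≤ ∑ y, (schutz ι s).dist x y :=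
            Finset.single_le_sum (f := fun y => (schutz ι s).dist x y) (fun _ _ => Nat.zero_le _) (Finset.mem_univ y)
        _ ≤ _ := Finset.single_le_sum (f := fun x => ∑ y, (schutz ι s).dist x y) (fun _ _ => Nat.zero_le _) (Finset.mem_univ x)
    refine ⟨fun _ => (), C, fun x y => ?_, fun x y => ?_, fun z => ?_⟩
    · simp
    · exact (hC x y).trans (Nat.le_add_left _ _)
    · exact ⟨⟨s, .refl, .refl⟩, by simp⟩

/-! ### The words -/

def T (m : ℕ) : Set (ℤ × ℤ) :=
  {p | p.2 = 0 ∨ p.2 = -1 ∨ (3 ∣ p.1 ∧ 0 ≤ p.2 ∧ p.2 ≤ m + 1) ∨ (3 ∣ p.1 - 1 ∧ p.2 = m + 1)}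

lemma T_good {m : ℕ} (h : ∀ s, ¬ HH m s) : ¬ Bad (T m) := by
  rintro ⟨m', s, x, y, h1, h2, h3, h4, h5⟩
  have a0 := h4 0 (by omega)
  have a1 := h4 1 (by omega)
  have a2 := h4 2 (by omega)
  have b0 := h2 (m' + 1) le_rfl
  simp only [T, Set.mem_ofPred_eq] at a0 a1 a2 b0 h3 h5
  push_cast at a0 a1 a2 b0 h3 h5
  have hm : m' = m := by omega
  exact h s (hm ▸ h1)

lemma T_shift {m : ℕ} {p : ℤ × ℤ} {k : ℤ} (h : p ∈ T m) : p + (3 * k, 0) ∈ T m := by
  obtain ⟨x, y⟩ := p
  simp only [T, Set.mem_ofPred_eq, Prod.mk_add_mk] at h ⊢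
  omega

lemma T_shift' {m : ℕ} {p : ℤ × ℤ} {k : ℤ} (h : p - (3 * k, 0) ∈ T m) : p ∈ T m := by
  have := T_shift (k := k) h
  simpa using this

/-- `n` copies of the letter `x`. -/
def rp (n : ℕ) (x : L) : List L := (List.range n).map (fun _ => x)

lemma rp_eq (n : ℕ) (x : L) : rp n x = List.replicate n x := by
  simp [rp, List.map_const']

lemma disp_rp (n : ℕ) (x : L) : disp (rp n x) = (n * (dl x).1, n * (dl x).2) := by
  rw [rp_eq]
  induction n with
  | zero => simp [disp]; rfl
  | succ n ih =>
    rw [List.replicate_succ]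
    show dl x + disp (List.replicate n x) = _
    rw [ih]
    ext
    · simp; ring
    · simp; ring

lemma vis_rp (n : ℕ) (x : L) (p : ℤ × ℤ) :
    p ∈ vis (rp n x) ↔ ∃ k : ℕ, k ≤ n ∧ p = (k * (dl x).1, k * (dl x).2) := by
  rw [rp_eq]
  induction n generalizing p with
  | zero =>
    constructor
    · intro h
      have : p = 0 := h
      exact ⟨0, le_rfl, by rw [this]; simp; rfl⟩
    · rintro ⟨k, hk, rfl⟩
      have : k = 0 := by omega
      subst this
      show _ = _
      simp
  | succ n ih =>
    rw [List.replicate_succ]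
    show (p = 0 ∨ p - dl x ∈ vis (List.replicate n x)) ↔ _
    rw [ih]
    constructor
    · rintro (h | ⟨k, hk, h⟩)
      · exact ⟨0, by omega, by rw [h]; simp; rfl⟩
      · refine ⟨k + 1, by omega, ?_⟩
        have : p = (k * (dl x).1, k * (dl x).2) + dl x := by rw [← h]; simp
        rw [this]
        ext
        · simp; ring
        · simp; ring
    · rintro ⟨k, hk, h⟩
      rcases Nat.eq_zero_or_pos k with rfl | hk0
      · left; rw [h]; simp
      · right
        refine ⟨k - 1, by omega, ?_⟩
        obtain ⟨j, rfl⟩ : ∃ j, k = j + 1 := ⟨k - 1, by omega⟩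
        rw [h]
        ext
        · simp; ring
        · simp; ring

def lR : L := (false, false)
def lL : L := (false, true)
def lU : L := (true, false)
def lD : L := (true, true)

/-- The idempotent word coding `m`. -/
def em (m : ℕ) : List L := rp (m + 1) lU ++ ([lR, lL] ++ rp (m + 1) lD)

def gw : List L := [lD, lU]

def X (m : ℕ) : List (List L) := [[lR, lR, lR], em m, gw]

/-- The word whose value is zero iff `HH m s`. -/
def zw (m s : ℕ) : List L := em m ++ (rp (3 * (s + 1)) lR ++ gw)

lemma mem_vis_two {x y : L} {p : ℤ × ℤ} : p ∈ vis [x, y] ↔ p = 0 ∨ p = dl x ∨ p = dl x + dl y := by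
  show (p = 0 ∨ (p - dl x = 0 ∨ p - dl x - dl y = 0)) ↔ _
  rw [sub_eq_zero, sub_sub, sub_eq_zero]

lemma disp_em (m : ℕ) : disp (em m) = 0 := by
  rw [em, disp_append, disp_append, disp_rp, disp_rp]
  simp [disp, lU, lR, lL, lD, dl]

lemma vis_em (m : ℕ) (x y : ℤ) :
    (x, y) ∈ vis (em m) ↔ (x = 0 ∧ 0 ≤ y ∧ y ≤ m + 1) ∨ (x = 1 ∧ y = m + 1) := by
  rw [em, vis_append, vis_append, vis_rp, mem_vis_two, vis_rp, disp_rp]
  have e1 : disp [lR, lL] = 0 := by simp [disp, lR, lL, dl]
  rw [e1]
  simp only [lU, lR, lL, lD, dl, Prod.ext_iff, Prod.fst_sub, Prod.snd_sub, Prod.fst_add,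
    Prod.snd_add, Prod.fst_zero, Prod.snd_zero, mul_zero, mul_one, mul_neg, sub_zero]
  push_cast
  constructor
  · rintro (⟨k, hk, h1, h2⟩ | (h | h | h) | ⟨k, hk, h1, h2⟩)
    · left; omega
    · left; omega
    · right; omega
    · left; omega
    · left; omega
  · rintro (⟨h1, h2, h3⟩ | ⟨h1, h2⟩)
    · left
      refine ⟨y.toNat, by omega, by simpa using h1, by omega⟩
    · right; left; right; left
      omega

lemma disp_gw : disp gw = 0 := by
  simp [gw, disp, lU, lD, dl]

lemma vis_gw (x y : ℤ) : (x, y) ∈ vis gw ↔ x = 0 ∧ (y = 0 ∨ y = -1) := by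
  rw [gw, mem_vis_two]
  simp only [lU, lD, dl, Prod.mk.injEq, Prod.mk_eq_zero, Prod.mk_add_mk]
  omega

lemma bad_zw {m s : ℕ} (h : HH m s) : Bad (vis (zw m s)) := by
  refine ⟨m, s, 0, 0, h, fun k hk => ?_, ?_, fun k hk => ?_, ?_⟩
  · rw [zw, vis_append]
    left
    rw [vis_em]
    left
    omega
  · rw [zw, vis_append]
    left
    rw [vis_em]
    right
    omega
  · rw [zw, vis_append, disp_em, vis_append, vis_rp]
    right; left
    refine ⟨k, hk, ?_⟩
    simp [lR, dl]
  · rw [zw, vis_append, disp_em, vis_append, disp_rp]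
    right; right
    have : ((0 : ℤ) + 3 * ((s : ℤ) + 1), (0 : ℤ) - 1) - 0 -
        (((3 * (s + 1) : ℕ) : ℤ) * (dl lR).1, ((3 * (s + 1) : ℕ) : ℤ) * (dl lR).2) = (0, -1) := by
      ext
      · simp [lR, dl]
      · simp [lR, dl]
    rw [this, vis_gw]
    omega

def K (m : ℕ) : Prop := ∃ s, HH m s

/-- The closed inverse submonoid used when `m ∉ K`. -/
def SS (m : ℕ) : Submonoid M where
  carrier := {x | ∃ u, mk u = x ∧ vis u ⊆ T m ∧ ∃ k, disp u = (3 * k, 0)}
  one_mem' := ⟨[], rfl, by
    intro p hp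
    have : p = 0 := hp
    rw [this]
    left; rfl, 0, rfl⟩
  mul_mem' := by
    rintro _ _ ⟨u, rfl, hu, k, hk⟩ ⟨v, rfl, hv, l, hl⟩
    refine ⟨u ++ v, (mk_mul u v).symm, ?_, k + l, ?_⟩
    · intro p hp
      rw [vis_append] at hp
      rcases hp with hp | hp
      · exact hu hp
      · rw [hk] at hp
        exact T_shift' (hv hp)
    · rw [disp_append, hk, hl]
      ext
      · simp; ring
      · simp

lemma mem_SS {m : ℕ} {x : M} :
    x ∈ SS m ↔ ∃ u, mk u = x ∧ vis u ⊆ T m ∧ ∃ k, disp u = (3 * k, 0) := Iff.rfl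

lemma SS_inv {m : ℕ} : InvClosed (SS m) := by
  rintro x ⟨u, rfl, hu, k, hk⟩ y hy
  obtain ⟨v, rfl⟩ := exists_mk y
  refine ⟨wi u, (inv_unique hy).symm, ?_, -k, ?_⟩
  · intro p hp
    rw [vis_wi, hk] at hp
    have := T_shift (k := -k) (hu hp)
    have e : ((3 * k, 0) + (3 * -k, 0) : ℤ × ℤ) = 0 := by ext <;> simp
    rw [add_assoc, e] at this
    simpa using this
  · rw [disp_wi, hk]
    simp

lemma SS_up {m : ℕ} (hm : ¬ K m) : UpClosed (SS m) := by
  have hg : ¬ Bad (T m) := T_good (fun s hs => hm ⟨s, hs⟩)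
  rintro x ⟨u, rfl, hu, k, hk⟩ y ⟨e, he, hy⟩
  have hbu : ¬ Bad (vis u) := fun h => hg (h.mono hu)
  obtain ⟨v, rfl⟩ := exists_mk y
  obtain ⟨f, rfl⟩ := exists_mk e
  rw [mk_mul, mk_eq] at he hy
  rcases hy with hy | hy
  · exact absurd hy.1 hbu
  · rcases he with he | he
    · exact absurd (hy.1 ▸ bad_left he.2) hbu
    · have hf : disp f = 0 := by
        have := he.2
        rw [disp_append] at this
        simpa using this
      refine ⟨v, rfl, ?_, k, ?_⟩
      · intro p hp
        apply hu
        rw [hy.1, vis_append, hf]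
        right
        simpa using hp
      · rw [← hk, hy.2, disp_append, hf, zero_add]

lemma SS_gens {m : ℕ} : gens ι (X m) ⊆ SS m := by
  rintro x ⟨w, hw, rfl⟩
  rw [val_eq]
  simp only [X, List.mem_cons, List.not_mem_nil, or_false] at hw
  rcases hw with rfl | rfl | rfl
  · refine ⟨_, rfl, ?_, 1, by simp [disp, lR, dl]⟩
    intro p hp
    have : p = 0 ∨ (p - dl lR = 0 ∨ (p - dl lR - dl lR = 0 ∨ p - dl lR - dl lR - dl lR = 0)) := hp
    simp only [lR, dl] at this
    obtain ⟨x, y⟩ := p
    left
    simp only [Prod.mk_sub_mk, Prod.mk_eq_zero] at this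
    show y = 0
    omega
  · refine ⟨_, rfl, ?_, 0, by rw [disp_em]; rfl⟩
    rintro ⟨x, y⟩ hp
    rw [vis_em] at hp
    simp only [T, Set.mem_ofPred_eq]
    omega
  · refine ⟨_, rfl, ?_, 0, by rw [disp_gw]; rfl⟩
    rintro ⟨x, y⟩ hp
    rw [vis_gw] at hp
    simp only [T, Set.mem_ofPred_eq]
    omega

lemma not_mem_SS {m : ℕ} (hm : ¬ K m) {w : List L} (hw : Bad (vis w)) : mk w ∉ SS m := by
  have hg : ¬ Bad (T m) := T_good (fun s hs => hm ⟨s, hs⟩)
  rintro ⟨u, hu, hT, -⟩
  rw [mk_eq] at hu
  rcases hu with hu | hu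
  · exact hg (hu.1.mono hT)
  · exact hg ((hu.1 ▸ hw : Bad (vis u)).mono hT)

lemma mem_closure {m s : ℕ} (h : HH m s) {w : List L} (hw : Bad (vis w)) :
    mk w ∈ Submonoid.closure (gens ι (X m)) := by
  have h1 : mk w = mk (zw m s) := mk_eq.2 (Or.inl ⟨hw, bad_zw h⟩)
  rw [h1, zw, ← mk_mul, ← mk_mul]
  have hgen : ∀ v ∈ X m, mk v ∈ Submonoid.closure (gens ι (X m)) := fun v hv =>
    Submonoid.subset_closure ⟨v, hv, val_eq v⟩
  refine mul_mem (hgen _ (by simp [X])) (mul_mem ?_ (hgen _ (by simp [X])))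
  have hR := hgen [lR, lR, lR] (by simp [X])
  have : ∀ n : ℕ, mk (rp (3 * n) lR) ∈ Submonoid.closure (gens ι (X m)) := by
    intro n
    induction n with
    | zero => exact one_mem _
    | succ n ih =>
      have : rp (3 * (n + 1)) lR = rp (3 * n) lR ++ [lR, lR, lR] := by
        rw [rp_eq, rp_eq]
        have : 3 * (n + 1) = 3 * n + 3 := by ring
        rw [this, List.replicate_add]
        rfl
      rw [this, ← mk_mul]
      exact mul_mem ih hR
  exact this (s + 1)

/-! ### Undecidability of `K` -/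

lemma K_iff (c : Nat.Partrec.Code) : K (Encodable.encode c) ↔ (Nat.Partrec.Code.eval c 0).Dom := by
  unfold K HH
  simp only [Denumerable.ofNat_encode]
  constructor
  · rintro ⟨s, hs⟩
    obtain ⟨x, hx⟩ := Option.isSome_iff_exists.1 hs
    have := Nat.Partrec.Code.evaln_sound hx
    exact Part.dom_iff_mem.2 ⟨x, this⟩
  · intro h
    obtain ⟨x, hx⟩ := Part.dom_iff_mem.1 h
    obtain ⟨k, hk⟩ := Nat.Partrec.Code.evaln_complete.1 hx
    refine ⟨k, ?_⟩
    exact Option.isSome_iff_exists.2 ⟨x, Nat.Partrec.Code.evaln_mono (Nat.le_succ k) hk⟩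

theorem K_not_computable : ¬ ComputablePred K := by
  intro h
  apply ComputablePred.halting_problem 0
  refine ComputablePred.computable_of_manyOneReducible
    (q := K) ⟨fun c => Encodable.encode c, Computable.encode, fun c => (K_iff c).symm⟩ h

lemma exists_HH : ∃ m s, HH m s := by
  by_contra hcon
  push Not at hcon
  apply K_not_computable
  have : K = fun _ => False := by
    funext m
    simp [K, hcon]
  rw [this]
  exact ⟨fun _ => instDecidableFalse, Computable.const _⟩

noncomputable def m0 : ℕ := exists_HH.choose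
noncomputable def s0 : ℕ := exists_HH.choose_spec.choose
lemma h0 : HH m0 s0 := exists_HH.choose_spec.choose_spec

noncomputable def z0 : List L := zw m0 s0
lemma bad_z0 : Bad (vis z0) := bad_zw h0

lemma rp_primrec (x : L) : Primrec (fun n => rp n x) :=
  Primrec.list_map Primrec.list_range (Primrec₂.const x)

lemma em_primrec : Primrec em := by
  refine Primrec.list_append.comp ((rp_primrec lU).comp Primrec.succ)
    (Primrec.list_append.comp (Primrec.const _) ((rp_primrec lD).comp Primrec.succ))

lemma X_primrec : Primrec X := by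
  refine Primrec.list_cons.comp (Primrec.const _) (Primrec.list_cons.comp em_primrec
    (Primrec.const _))

theorem reduce (P : List (List L) × List L → Prop)
    (h1 : ∀ m, K m → P (X m, z0)) (h2 : ∀ m, P (X m, z0) → K m) : ¬ ComputablePred P := by
  intro h
  apply K_not_computable
  refine ComputablePred.computable_of_manyOneReducible
    (q := P) ⟨fun m => (X m, z0), ?_, fun m => ⟨h1 m, h2 m⟩⟩ h
  exact (Primrec.pair X_primrec (Primrec.const z0)).to_comp

theorem sub_undec : ¬ ComputablePred (SubmonoidMem ι) := by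
  refine reduce _ (fun m hm => ?_) (fun m hm => ?_)
  · obtain ⟨s, hs⟩ := hm
    show val ι z0 ∈ _
    rw [val_eq]
    exact mem_closure hs bad_z0
  · by_contra hK
    have h1 : val ι z0 ∈ Submonoid.closure (gens ι (X m)) := hm
    rw [val_eq] at h1
    exact not_mem_SS hK bad_z0 ((Submonoid.closure_le.2 SS_gens) h1)

theorem inv_undec : ¬ ComputablePred (InverseSubmonoidMem ι) := by
  refine reduce _ (fun m hm => ?_) (fun m hm => ?_)
  · obtain ⟨s, hs⟩ := hm
    intro S _ hS
    have := mem_closure hs bad_z0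
    rw [← val_eq] at this
    exact (Submonoid.closure_le.2 hS) this
  · by_contra hK
    have h1 : val ι z0 ∈ SS m := hm (SS m) SS_inv SS_gens
    rw [val_eq] at h1
    exact not_mem_SS hK bad_z0 h1

theorem closed_undec : ¬ ComputablePred (ClosedInverseSubmonoidMem ι) := by
  refine reduce _ (fun m hm => ?_) (fun m hm => ?_)
  · obtain ⟨s, hs⟩ := hm
    intro S _ _ hS
    have := mem_closure hs bad_z0
    rw [← val_eq] at this
    exact (Submonoid.closure_le.2 hS) this
  · by_contra hK
    have h1 : val ι z0 ∈ SS m := hm (SS m) SS_inv (SS_up hK) SS_gens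
    rw [val_eq] at h1
    exact not_mem_SS hK bad_z0 h1

/-! ### Rational subset membership -/

def trans (m : ℕ) : List (ℕ × L × ℕ) :=
  (List.range (m + 1)).map (fun i => (i, lU, i + 1)) ++
    ([(m + 1, lR, m + 2), (m + 2, lL, m + 3)] ++
      ((List.range (m + 1)).map (fun i => (m + 3 + i, lD, m + 3 + i + 1)) ++
        [(2 * m + 4, lR, 2 * m + 4), (2 * m + 4, lD, 2 * m + 5), (2 * m + 5, lU, 2 * m + 6)]))

def aut (m : ℕ) : Aut Bool := (trans m, [0], [2 * m + 6])

lemma mem_trans {m p q : ℕ} {x : L} : (p, x, q) ∈ trans m ↔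
    (p ≤ m ∧ x = lU ∧ q = p + 1) ∨ (p = m + 1 ∧ x = lR ∧ q = m + 2) ∨
    (p = m + 2 ∧ x = lL ∧ q = m + 3) ∨ (m + 3 ≤ p ∧ p ≤ 2 * m + 3 ∧ x = lD ∧ q = p + 1) ∨
    (p = 2 * m + 4 ∧ x = lR ∧ q = 2 * m + 4) ∨ (p = 2 * m + 4 ∧ x = lD ∧ q = 2 * m + 5) ∨
    (p = 2 * m + 5 ∧ x = lU ∧ q = 2 * m + 6) := by
  simp only [trans, List.mem_append, List.mem_map, List.mem_range, List.mem_cons, Prod.mk.injEq,
    List.not_mem_nil, or_false]
  constructor
  · rintro (⟨i, hi, rfl, rfl, rfl⟩ | (⟨rfl, rfl, rfl⟩ | ⟨rfl, rfl, rfl⟩) |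
      ⟨i, hi, rfl, rfl, rfl⟩ | ⟨rfl, rfl, rfl⟩ | ⟨rfl, rfl, rfl⟩ | ⟨rfl, rfl, rfl⟩)
    · left; exact ⟨by omega, rfl, rfl⟩
    · right; left; exact ⟨rfl, rfl, rfl⟩
    · right; right; left; exact ⟨rfl, rfl, rfl⟩
    · right; right; right; left; exact ⟨by omega, by omega, rfl, rfl⟩
    · right; right; right; right; left; exact ⟨rfl, rfl, rfl⟩
    · right; right; right; right; right; left; exact ⟨rfl, rfl, rfl⟩
    · right; right; right; right; right; right; exact ⟨rfl, rfl, rfl⟩
  · rintro (⟨h1, rfl, rfl⟩ | ⟨rfl, rfl, rfl⟩ | ⟨rfl, rfl, rfl⟩ |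
      ⟨h1, h2, rfl, rfl⟩ | ⟨rfl, rfl, rfl⟩ | ⟨rfl, rfl, rfl⟩ | ⟨rfl, rfl, rfl⟩)
    · left; exact ⟨p, by omega, rfl, rfl, rfl⟩
    · right; left; left; exact ⟨rfl, rfl, rfl⟩
    · right; left; right; exact ⟨rfl, rfl, rfl⟩
    · right; right; left; exact ⟨p - (m + 3), by omega, by omega, rfl, by omega⟩
    · right; right; right; left; exact ⟨rfl, rfl, rfl⟩
    · right; right; right; right; left; exact ⟨rfl, rfl, rfl⟩
    · right; right; right; right; right; exact ⟨rfl, rfl, rfl⟩

lemma Run.append {δ : List (ℕ × L × ℕ)} {p q r : ℕ} {u v : List L} (h : Run δ p u q)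
    (h' : Run δ q v r) : Run δ p (u ++ v) r := by
  induction h with
  | nil q => exact h'
  | cons hx _ ih => exact Run.cons hx (ih h')

lemma run_rp {δ : List (ℕ × L × ℕ)} {x : L} (n q : ℕ) (h : ∀ i < n, (q + i, x, q + i + 1) ∈ δ) :
    Run δ q (rp n x) (q + n) := by
  rw [rp_eq]
  induction n generalizing q with
  | zero => exact Run.nil q
  | succ n ih =>
    rw [List.replicate_succ]
    refine Run.cons (q := q + 1) (by simpa using h 0 (by omega)) ?_
    have := ih (q + 1) (fun i hi => by
      have := h (i + 1) (by omega)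
      have e : q + (i + 1) = q + 1 + i := by ring
      rwa [e] at this)
    have e : q + (n + 1) = q + 1 + n := by ring
    rwa [e]

lemma run_loop {δ : List (ℕ × L × ℕ)} {x : L} (n q : ℕ) (h : (q, x, q) ∈ δ) :
    Run δ q (rp n x) q := by
  rw [rp_eq]
  induction n with
  | zero => exact Run.nil q
  | succ n ih =>
    rw [List.replicate_succ]
    exact Run.cons h ih

lemma accepts_zw (m s : ℕ) : Accepts (aut m) (zw m s) := by
  refine ⟨0, by simp [aut], 2 * m + 6, by simp [aut], ?_⟩
  show Run (trans m) 0 (zw m s) (2 * m + 6)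
  rw [zw, em]
  have h1 : Run (trans m) 0 (rp (m + 1) lU) (m + 1) := by
    have := run_rp (δ := trans m) (x := lU) (m + 1) 0 (fun i hi => by
      rw [mem_trans]; left; exact ⟨by omega, rfl, by omega⟩)
    simpa using this
  have h2 : Run (trans m) (m + 1) [lR, lL] (m + 3) :=
    Run.cons (mem_trans.2 (Or.inr (Or.inl ⟨rfl, rfl, rfl⟩)))
      (Run.cons (mem_trans.2 (Or.inr (Or.inr (Or.inl ⟨rfl, rfl, rfl⟩)))) (Run.nil _))
  have h3 : Run (trans m) (m + 3) (rp (m + 1) lD) (2 * m + 4) := by
    have := run_rp (δ := trans m) (x := lD) (m + 1) (m + 3) (fun i hi => by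
      rw [mem_trans]; right; right; right; left; exact ⟨by omega, by omega, rfl, by omega⟩)
    have e : m + 3 + (m + 1) = 2 * m + 4 := by ring
    rwa [e] at this
  have h4 : Run (trans m) (2 * m + 4) (rp (3 * (s + 1)) lR) (2 * m + 4) := by
    apply run_loop
    rw [mem_trans]; right; right; right; right; left; exact ⟨rfl, rfl, rfl⟩
  have h5 : Run (trans m) (2 * m + 4) gw (2 * m + 6) :=
    Run.cons (q := 2 * m + 5) (by
      rw [mem_trans]; right; right; right; right; right; left; exact ⟨rfl, rfl, rfl⟩)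
      (Run.cons (q := 2 * m + 6) (by
      rw [mem_trans]; right; right; right; right; right; right; exact ⟨rfl, rfl, rfl⟩) (Run.nil _))
  exact (h1.append (h2.append h3)).append (h4.append h5)

def Pos (m q : ℕ) (p : ℤ × ℤ) : Prop :=
  (q ≤ m + 1 ∧ p.1 = 0 ∧ p.2 = q) ∨ (q = m + 2 ∧ p.1 = 1 ∧ p.2 = m + 1) ∨
  (m + 3 ≤ q ∧ q ≤ 2 * m + 3 ∧ p.1 = 0 ∧ p.2 = 2 * m + 4 - q) ∨
  (q = 2 * m + 4 ∧ p.2 = 0) ∨ (q = 2 * m + 5 ∧ p.2 = -1) ∨ (q = 2 * m + 6 ∧ p.2 = 0)

lemma Pos.mem {m q : ℕ} {p : ℤ × ℤ} (h : Pos m q p) : p ∈ T m := by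
  simp only [T, Set.mem_ofPred_eq]
  unfold Pos at h
  omega

lemma Pos.step {m q r : ℕ} {x : L} {p : ℤ × ℤ} (h : Pos m q p) (hx : (q, x, r) ∈ trans m) :
    Pos m r (p + dl x) := by
  rw [mem_trans] at hx
  obtain ⟨a, b⟩ := p
  rcases hx with ⟨h1, rfl, hr⟩ | ⟨hq, rfl, hr⟩ | ⟨hq, rfl, hr⟩ |
      ⟨h1, h2, rfl, hr⟩ | ⟨hq, rfl, hr⟩ | ⟨hq, rfl, hr⟩ | ⟨hq, rfl, hr⟩ <;>
    simp only [Pos, lU, lR, lL, lD, dl, Prod.mk_add_mk] at h ⊢ <;> omega

lemma run_inside {m p r : ℕ} {w : List L} (h : Run (trans m) p w r) :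
    ∀ P, Pos m p P → ∀ v ∈ vis w, P + v ∈ T m := by
  induction h with
  | nil q =>
    intro P hP v hv
    have : v = 0 := hv
    rw [this, add_zero]
    exact hP.mem
  | @cons p q r x w hx _ ih =>
    intro P hP v hv
    have hv' : v = 0 ∨ v - dl x ∈ vis w := hv
    rcases hv' with rfl | hv'
    · rw [add_zero]; exact hP.mem
    · have := ih (P + dl x) (hP.step hx) _ hv'
      have e : P + dl x + (v - dl x) = P + v := by abel
      rwa [e] at this

lemma trans_primrec : Primrec trans := by
  unfold trans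
  refine Primrec.list_append.comp (Primrec.list_map (Primrec.list_range.comp Primrec.succ) ?_)
    (Primrec.list_append.comp ?_ (Primrec.list_append.comp
      (Primrec.list_map (Primrec.list_range.comp Primrec.succ) ?_) ?_))
  · exact (Primrec.pair Primrec.snd (Primrec.pair (Primrec.const _)
      (Primrec.succ.comp Primrec.snd))).to₂
  · refine Primrec.list_cons.comp (Primrec.pair Primrec.succ (Primrec.pair (Primrec.const _)
      (Primrec.nat_add.comp Primrec.id (Primrec.const 2)))) (Primrec.list_cons.comp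
      (Primrec.pair (Primrec.nat_add.comp Primrec.id (Primrec.const 2)) (Primrec.pair
        (Primrec.const _) (Primrec.nat_add.comp Primrec.id (Primrec.const 3)))) (Primrec.const _))
  · have h : Primrec (fun p : ℕ × ℕ => p.1 + 3 + p.2) :=
      Primrec.nat_add.comp (Primrec.nat_add.comp Primrec.fst (Primrec.const 3)) Primrec.snd
    exact (Primrec.pair h (Primrec.pair (Primrec.const _) (Primrec.succ.comp h))).to₂
  · have h2 : Primrec (fun m : ℕ => 2 * m) := Primrec.nat_mul.comp (Primrec.const 2) Primrec.id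
    have h : ∀ k, Primrec (fun m : ℕ => 2 * m + k) := fun k =>
      Primrec.nat_add.comp h2 (Primrec.const k)
    refine Primrec.list_cons.comp (Primrec.pair (h 4) (Primrec.pair (Primrec.const _) (h 4)))
      (Primrec.list_cons.comp (Primrec.pair (h 4) (Primrec.pair (Primrec.const _) (h 5)))
      (Primrec.list_cons.comp (Primrec.pair (h 5) (Primrec.pair (Primrec.const _) (h 6)))
      (Primrec.const _)))

theorem rational_undec : ¬ ComputablePred (RationalMem ι) := by
  intro h
  apply K_not_computable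
  refine ComputablePred.computable_of_manyOneReducible
    (q := RationalMem ι) ⟨fun m => (aut m, z0), ?_, fun m => ⟨?_, ?_⟩⟩ h
  · have h2 : Primrec (fun m : ℕ => 2 * m) := Primrec.nat_mul.comp (Primrec.const 2) Primrec.id
    have h : ∀ k, Primrec (fun m : ℕ => 2 * m + k) := fun k =>
      Primrec.nat_add.comp h2 (Primrec.const k)
    have : Primrec aut := Primrec.pair trans_primrec (Primrec.pair (Primrec.const _)
      (Primrec.list_cons.comp (h 6) (Primrec.const _)))
    exact (Primrec.pair this (Primrec.const z0)).to_comp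
  · rintro ⟨s, hs⟩
    refine ⟨zw m s, accepts_zw m s, ?_⟩
    show val ι (zw m s) = val ι z0
    rw [val_eq, val_eq, mk_eq]
    exact Or.inl ⟨bad_zw hs, bad_z0⟩
  · rintro ⟨u, hu, huz⟩
    by_contra hK
    have hg : ¬ Bad (T m) := T_good (fun s hs => hK ⟨s, hs⟩)
    obtain ⟨i, hi, f, hf, hr⟩ := hu
    have hi : i = 0 := by simpa [aut] using hi
    subst hi
    have hin := run_inside (m := m) hr 0 (by left; simp)
    have huz' : val ι u = val ι z0 := huz
    rw [val_eq, val_eq, mk_eq] at huz'
    have hbu : ¬ Bad (vis u) := fun hb => hg (hb.mono (fun v hv => by simpa using hin v hv))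
    rcases huz' with h | h
    · exact hbu h.1
    · exact hbu (h.1 ▸ bad_z0)


/-! ### The word problem is decidable -/

abbrev NN := ℕ × ℕ

def ci (p : NN) : ℤ × ℤ := (p.1, p.2)

lemma ci_inj {p q : NN} (h : ci p = ci q) : p = q := by
  simp only [ci, Prod.mk.injEq, Nat.cast_inj] at h
  exact Prod.ext h.1 h.2

def st (p : NN) (x : L) : NN :=
  bif x.1 then (p.1, bif x.2 then p.2 - 1 else p.2 + 1) else (bif x.2 then p.1 - 1 else p.1 + 1, p.2)

lemma ci_st {p : NN} {x : L} (h1 : 1 ≤ p.1) (h2 : 1 ≤ p.2) : ci (st p x) = ci p + dl x := by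
  obtain ⟨a, b⟩ := x
  obtain ⟨u, v⟩ := p
  cases a <;> cases b <;> simp [ci, st, dl] <;> push_cast [Nat.cast_sub h1, Nat.cast_sub h2] <;> ring

def sg (s : NN × List NN) (x : L) : NN × List NN := (st s.1 x, st s.1 x :: s.2)

lemma st_ge {p : NN} {x : L} {n : ℕ} (h1 : n + 1 ≤ p.1) (h2 : n + 1 ≤ p.2) :
    n ≤ (st p x).1 ∧ n ≤ (st p x).2 := by
  obtain ⟨a, b⟩ := x
  obtain ⟨u, v⟩ := p
  simp only at h1 h2
  cases a <;> cases b <;> simp [st] <;> omega

lemma foldl_spec (w : List L) : ∀ (P : NN) (l : List NN), w.length ≤ P.1 → w.length ≤ P.2 →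
    P ∈ l → ci (w.foldl sg (P, l)).1 = ci P + disp w ∧
      ∀ q, q ∈ (w.foldl sg (P, l)).2 ↔ q ∈ l ∨ ci q - ci P ∈ vis w := by
  induction w with
  | nil =>
    intro P l _ _ hP
    refine ⟨by simp [disp], fun q => ?_⟩
    constructor
    · exact Or.inl
    · rintro (h | h)
      · exact h
      · have h : ci q - ci P = 0 := h
        rw [sub_eq_zero] at h
        rw [ci_inj h]
        exact hP
  | cons x w ih =>
    intro P l h1 h2 hP
    simp only [List.length_cons] at h1 h2
    obtain ⟨h3, h4⟩ := st_ge (x := x) h1 h2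
    have hc := ci_st (x := x) (p := P) (by omega) (by omega)
    obtain ⟨i1, i2⟩ := ih (st P x) (st P x :: l) h3 h4 (by simp)
    refine ⟨?_, fun q => ?_⟩
    · show ci (w.foldl sg (st P x, st P x :: l)).1 = _
      rw [i1, hc]
      show _ = ci P + (dl x + disp w)
      abel
    · show q ∈ (w.foldl sg (st P x, st P x :: l)).2 ↔ _ ∨ (ci q - ci P = 0 ∨ ci q - ci P - dl x ∈ vis w)
      rw [i2, List.mem_cons, hc, sub_sub]
      constructor
      · rintro ((h | h) | h)
        · right; right
          rw [h, hc, sub_self]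
          exact zero_mem_vis w
        · exact Or.inl h
        · exact Or.inr (Or.inr h)
      · rintro (h | h | h)
        · exact Or.inl (Or.inr h)
        · left; right
          rw [sub_eq_zero] at h
          rw [ci_inj h]
          exact hP
        · exact Or.inr h

def tr (N : ℕ) (w : List L) : NN × List NN := w.foldl sg ((N, N), [(N, N)])

lemma vis_bound (w : List L) : ∀ p ∈ vis w, |p.1| ≤ w.length ∧ |p.2| ≤ w.length := by
  induction w with
  | nil =>
    intro p hp
    have : p = 0 := hp
    simp [this]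
  | cons x w ih =>
    rintro p (hp | hp)
    · rw [hp]
      simp
      omega
    · have := ih _ hp
      obtain ⟨a, b⟩ := p
      obtain ⟨c, d⟩ := x
      simp only [abs_le, List.length_cons] at this ⊢
      cases c <;> cases d <;> simp only [dl, Prod.mk_sub_mk] at this <;> push_cast <;> omega

lemma tr_mem {N : ℕ} {w : List L} (h : w.length ≤ N) (q : NN) :
    q ∈ (tr N w).2 ↔ ci q - ((N : ℤ), (N : ℤ)) ∈ vis w := by
  have := (foldl_spec w (N, N) [(N, N)] h h (by simp)).2 q
  rw [tr, this]
  constructor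
  · rintro (hq | hq)
    · simp only [List.mem_singleton] at hq
      rw [hq]
      have : ci (N, N) - ((N : ℤ), (N : ℤ)) = 0 := by simp [ci]
      rw [this]
      exact zero_mem_vis w
    · exact hq
  · exact Or.inr

lemma tr_fst {N : ℕ} {w : List L} (h : w.length ≤ N) :
    ci (tr N w).1 = ((N : ℤ), (N : ℤ)) + disp w :=
  (foldl_spec w (N, N) [(N, N)] h h (by simp)).1

/-- The pattern occurs at `q`. -/
def F (d : ((ℕ × ℕ) × NN) × List NN) : Prop :=
  HH d.1.1.1 d.1.1.2 ∧ (∀ k ∈ List.range (d.1.1.1 + 2), (d.1.2.1, d.1.2.2 + k) ∈ d.2) ∧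
  (d.1.2.1 + 1, d.1.2.2 + (d.1.1.1 + 1)) ∈ d.2 ∧
  (∀ k ∈ List.range (3 * (d.1.1.2 + 1) + 1), (d.1.2.1 + k, d.1.2.2) ∈ d.2) ∧
  1 ≤ d.1.2.2 ∧ (d.1.2.1 + 3 * (d.1.1.2 + 1), d.1.2.2 - 1) ∈ d.2

def BadL (d : ℕ × List NN) : Prop :=
  ∃ m ∈ List.range (2 * d.1 + 1), ∃ s ∈ List.range (2 * d.1 + 1), ∃ q ∈ d.2, F (((m, s), q), d.2)

lemma bad_iff {N : ℕ} {w : List L} (h : w.length < N) : Bad (vis w) ↔ BadL (N, (tr N w).2) := by
  have hmem := tr_mem (N := N) (w := w) h.le
  constructor
  · rintro ⟨m, s, x, y, h1, h2, h3, h4, h5⟩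
    have b1 := vis_bound w _ (h2 0 (by omega))
    have b2 := vis_bound w _ (h2 (m + 1) le_rfl)
    have b3 := vis_bound w _ (h4 (3 * (s + 1)) le_rfl)
    have b4 := vis_bound w _ h5
    simp only [abs_le] at b1 b2 b3 b4
    push_cast at b1 b2 b3 b4
    refine ⟨m, by simp; omega, s, by simp; omega, ((x + N).toNat, (y + N).toNat), ?_, ?_⟩
    · rw [hmem]
      have := h2 0 (by omega)
      convert this using 1
      simp only [ci]
      ext
      · simp; omega
      · simp; omega
    · refine ⟨h1, fun k hk => ?_, ?_, fun k hk => ?_, ?_, ?_⟩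
      · simp only [List.mem_range] at hk
        simp only
        rw [hmem]
        have := h2 k (by omega)
        convert this using 1
        simp only [ci]
        ext
        · simp; omega
        · simp; omega
      · simp only
        rw [hmem]
        convert h3 using 1
        simp only [ci]
        ext
        · simp; omega
        · simp; omega
      · simp only [List.mem_range] at hk
        simp only
        rw [hmem]
        have := h4 k (by omega)
        convert this using 1
        simp only [ci]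
        ext
        · simp; omega
        · simp; omega
      · simp only
        omega
      · simp only
        rw [hmem]
        convert h5 using 1
        simp only [ci]
        ext
        · simp; omega
        · simp; omega
  · rintro ⟨m, -, s, -, ⟨a, b⟩, hq, h1, h2, h3, h4, h5, h6⟩
    simp only at h1 h2 h3 h4 h5 h6
    refine ⟨m, s, a - N, b - N, h1, fun k hk => ?_, ?_, fun k hk => ?_, ?_⟩
    · have := h2 k (by simp; omega)
      rw [hmem] at this
      convert this using 1
      simp only [ci]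
      ext
      · simp
      · simp; omega
    · rw [hmem] at h3
      convert h3 using 1
      simp only [ci]
      ext
      · simp; omega
      · simp; omega
    · have := h4 k (by simp; omega)
      rw [hmem] at this
      convert this using 1
      simp only [ci]
      ext
      · simp; omega
      · simp
    · rw [hmem] at h6
      convert h6 using 1
      simp only [ci]
      ext
      · simp; omega
      · simp; omega

/-- decision procedure -/
def WPd (p : List L × List L) : Prop :=
  (BadL (p.1.length + p.2.length + 1, (tr (p.1.length + p.2.length + 1) p.1).2) ∧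
    BadL (p.1.length + p.2.length + 1, (tr (p.1.length + p.2.length + 1) p.2).2)) ∨
  ((∀ q ∈ (tr (p.1.length + p.2.length + 1) p.1).2, q ∈ (tr (p.1.length + p.2.length + 1) p.2).2) ∧
   (∀ q ∈ (tr (p.1.length + p.2.length + 1) p.2).2, q ∈ (tr (p.1.length + p.2.length + 1) p.1).2) ∧
   (tr (p.1.length + p.2.length + 1) p.1).1 = (tr (p.1.length + p.2.length + 1) p.2).1)

lemma vis_sub_iff {N : ℕ} {u v : List L} (hu : u.length ≤ N) (hv : v.length ≤ N) :
    vis u ⊆ vis v ↔ ∀ q ∈ (tr N u).2, q ∈ (tr N v).2 := by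
  constructor
  · intro h q hq
    rw [tr_mem hu] at hq
    rw [tr_mem hv]
    exact h hq
  · rintro h ⟨x, y⟩ hp
    have hb := vis_bound u _ hp
    simp only [abs_le] at hb
    have := h ((x + N).toNat, (y + N).toNat) (by
      rw [tr_mem hu]
      convert hp using 1
      simp only [ci]
      ext
      · simp; omega
      · simp; omega)
    rw [tr_mem hv] at this
    convert this using 1
    simp only [ci]
    ext
    · simp; omega
    · simp; omega

lemma wp_iff (p : List L × List L) : WPd p ↔ WordProblem ι p := by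
  obtain ⟨u, v⟩ := p
  show WPd (u, v) ↔ val ι u = val ι v
  rw [val_eq, val_eq, mk_eq]
  unfold WPd rel
  simp only
  rw [← bad_iff (by omega), ← bad_iff (by omega), ← vis_sub_iff (by omega) (by omega),
    ← vis_sub_iff (by omega) (by omega)]
  have hfst : (tr (u.length + v.length + 1) u).1 = (tr (u.length + v.length + 1) v).1 ↔
      disp u = disp v := by
    have h1 := tr_fst (N := u.length + v.length + 1) (w := u) (by omega)
    have h2 := tr_fst (N := u.length + v.length + 1) (w := v) (by omega)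
    constructor
    · intro h
      rw [h, h2] at h1
      exact (add_left_cancel h1).symm
    · intro h
      apply ci_inj
      rw [h1, h2, h]
  rw [hfst]
  constructor
  · rintro (h | ⟨h1, h2, h3⟩)
    · exact Or.inl h
    · exact Or.inr ⟨h1.antisymm h2, h3⟩
  · rintro (h | ⟨h1, h2⟩)
    · exact Or.inl h
    · exact Or.inr ⟨h1.subset, h1.symm.subset, h2⟩

lemma st_primrec : Primrec (fun p : NN × L => st p.1 p.2) := by
  unfold st
  refine Primrec.cond (Primrec.fst.comp Primrec.snd) ?_ ?_
  · refine Primrec.pair (Primrec.fst.comp Primrec.fst) (Primrec.cond (Primrec.snd.comp Primrec.snd) ?_ ?_)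
    · exact Primrec.pred.comp (Primrec.snd.comp Primrec.fst)
    · exact Primrec.succ.comp (Primrec.snd.comp Primrec.fst)
  · refine Primrec.pair (Primrec.cond (Primrec.snd.comp Primrec.snd) ?_ ?_) (Primrec.snd.comp Primrec.fst)
    · exact Primrec.pred.comp (Primrec.fst.comp Primrec.fst)
    · exact Primrec.succ.comp (Primrec.fst.comp Primrec.fst)

lemma tr_primrec : Primrec (fun p : ℕ × List L => tr p.1 p.2) := by
  have g : Primrec (fun p : ℕ × List L => (((p.1, p.1), [(p.1, p.1)]) : NN × List NN)) :=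
    Primrec.pair (Primrec.pair Primrec.fst Primrec.fst)
      (Primrec.list_cons.comp (Primrec.pair Primrec.fst Primrec.fst) (Primrec.const ([] : List NN)))
  have h : Primrec₂ (fun (_ : ℕ × List L) (q : (NN × List NN) × L) => sg q.1 q.2) := by
    have h : Primrec (fun p : (ℕ × List L) × ((NN × List NN) × L) => st p.2.1.1 p.2.2) :=
      st_primrec.comp (Primrec.pair (Primrec.fst.comp (Primrec.fst.comp Primrec.snd))
        (Primrec.snd.comp Primrec.snd))
    exact (Primrec.pair h (Primrec.list_cons.comp h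
      (Primrec.snd.comp (Primrec.fst.comp Primrec.snd)))).to₂
  exact Primrec.list_foldl Primrec.snd g h

lemma mem_rel : PrimrecRel (fun (l : List NN) (q : NN) => q ∈ l) := by
  have := (Primrec.eq (α := NN)).exists_mem_list
  exact PrimrecRel.of_eq this (fun l q => by simp)

lemma HH_primrec : PrimrecPred (fun p : ℕ × ℕ => HH p.1 p.2) := by
  unfold HH
  refine Primrec.eq.comp (Primrec.option_isSome.comp ?_) (Primrec.const true)
  exact Nat.Partrec.Code.primrec_evaln.comp (Primrec.pair (Primrec.pair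
    (Primrec.succ.comp Primrec.snd) ((Primrec.ofNat Nat.Partrec.Code).comp Primrec.fst))
    (Primrec.const 0))

lemma add_primrec {α : Type} [Primcodable α] {f g : α → ℕ} (hf : Primrec f) (hg : Primrec g) :
    Primrec (fun a => f a + g a) := Primrec.nat_add.comp hf hg

lemma F_primrec : PrimrecPred F := by
  have hq1 : Primrec (fun d : ((ℕ × ℕ) × NN) × List NN => d.1.2.1) :=
    Primrec.fst.comp (Primrec.snd.comp Primrec.fst)
  have hq2 : Primrec (fun d : ((ℕ × ℕ) × NN) × List NN => d.1.2.2) :=
    Primrec.snd.comp (Primrec.snd.comp Primrec.fst)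
  have hm : Primrec (fun d : ((ℕ × ℕ) × NN) × List NN => d.1.1.1) :=
    Primrec.fst.comp (Primrec.fst.comp Primrec.fst)
  have hs : Primrec (fun d : ((ℕ × ℕ) × NN) × List NN => d.1.1.2) :=
    Primrec.snd.comp (Primrec.fst.comp Primrec.fst)
  have h3s : Primrec (fun d : ((ℕ × ℕ) × NN) × List NN => 3 * (d.1.1.2 + 1)) :=
    Primrec.nat_mul.comp (Primrec.const 3) (Primrec.succ.comp hs)
  unfold F
  refine PrimrecPred.and (HH_primrec.comp (Primrec.fst.comp Primrec.fst)) (PrimrecPred.and ?_
    (PrimrecPred.and ?_ (PrimrecPred.and ?_ (PrimrecPred.and ?_ ?_))))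
  · have hR : PrimrecRel (fun (k : ℕ) (d : ((ℕ × ℕ) × NN) × List NN) =>
        (d.1.2.1, d.1.2.2 + k) ∈ d.2) :=
      mem_rel.comp (Primrec.snd.comp Primrec.snd) (Primrec.pair (hq1.comp Primrec.snd)
        (add_primrec (hq2.comp Primrec.snd) Primrec.fst))
    exact hR.forall_mem_list.comp (Primrec.list_range.comp (add_primrec hm (Primrec.const 2)))
      Primrec.id
  · exact mem_rel.comp Primrec.snd (Primrec.pair (Primrec.succ.comp hq1)
      (add_primrec hq2 (Primrec.succ.comp hm)))
  · have hR : PrimrecRel (fun (k : ℕ) (d : ((ℕ × ℕ) × NN) × List NN) =>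
        (d.1.2.1 + k, d.1.2.2) ∈ d.2) :=
      mem_rel.comp (Primrec.snd.comp Primrec.snd) (Primrec.pair
        (add_primrec (hq1.comp Primrec.snd) Primrec.fst) (hq2.comp Primrec.snd))
    exact hR.forall_mem_list.comp (Primrec.list_range.comp (Primrec.succ.comp h3s)) Primrec.id
  · exact Primrec.nat_le.comp (Primrec.const 1) hq2
  · exact mem_rel.comp Primrec.snd (Primrec.pair (add_primrec hq1 h3s) (Primrec.pred.comp hq2))

lemma BadL_primrec : PrimrecPred BadL := by
  have h1 : PrimrecPred (fun d : (ℕ × ℕ) × List NN => ∃ q ∈ d.2, F ((d.1, q), d.2)) := by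
    have hR : PrimrecRel (fun (q : NN) (d : (ℕ × ℕ) × List NN) => F ((d.1, q), d.2)) :=
      F_primrec.comp (Primrec.pair (Primrec.pair (Primrec.fst.comp Primrec.snd) Primrec.fst)
        (Primrec.snd.comp Primrec.snd))
    exact hR.exists_mem_list.comp Primrec.snd Primrec.id
  have hN : Primrec (fun N : ℕ => 2 * N + 1) :=
    Primrec.succ.comp (Primrec.nat_mul.comp (Primrec.const 2) Primrec.id)
  have h2 : PrimrecPred (fun d : ℕ × (ℕ × List NN) => ∃ s ∈ List.range (2 * d.2.1 + 1),
      ∃ q ∈ d.2.2, F (((d.1, s), q), d.2.2)) := by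
    have hR : PrimrecRel (fun (s : ℕ) (d : ℕ × (ℕ × List NN)) =>
        ∃ q ∈ d.2.2, F (((d.1, s), q), d.2.2)) :=
      h1.comp (Primrec.pair (Primrec.pair (Primrec.fst.comp Primrec.snd) Primrec.fst)
        (Primrec.snd.comp (Primrec.snd.comp Primrec.snd)))
    exact hR.exists_mem_list.comp (Primrec.list_range.comp
      (hN.comp (Primrec.fst.comp Primrec.snd))) Primrec.id
  have hR : PrimrecRel (fun (m : ℕ) (d : ℕ × List NN) => ∃ s ∈ List.range (2 * d.1 + 1),
      ∃ q ∈ d.2, F (((m, s), q), d.2)) := h2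
  exact hR.exists_mem_list.comp (Primrec.list_range.comp (hN.comp Primrec.fst)) Primrec.id

lemma WPd_primrec : PrimrecPred WPd := by
  have hN : Primrec (fun p : List L × List L => p.1.length + p.2.length + 1) :=
    Primrec.succ.comp (add_primrec (Primrec.list_length.comp Primrec.fst)
      (Primrec.list_length.comp Primrec.snd))
  have t1 : Primrec (fun p : List L × List L => tr (p.1.length + p.2.length + 1) p.1) :=
    tr_primrec.comp (Primrec.pair hN Primrec.fst)
  have t2 : Primrec (fun p : List L × List L => tr (p.1.length + p.2.length + 1) p.2) :=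
    tr_primrec.comp (Primrec.pair hN Primrec.snd)
  have hR : PrimrecRel (fun (q : NN) (l : List NN) => q ∈ l) :=
    mem_rel.comp Primrec.snd Primrec.fst
  unfold WPd
  refine PrimrecPred.or (PrimrecPred.and ?_ ?_) (PrimrecPred.and ?_ (PrimrecPred.and ?_ ?_))
  · exact BadL_primrec.comp (Primrec.pair hN (Primrec.snd.comp t1))
  · exact BadL_primrec.comp (Primrec.pair hN (Primrec.snd.comp t2))
  · exact hR.forall_mem_list.comp (Primrec.snd.comp t1) (Primrec.snd.comp t2)
  · exact hR.forall_mem_list.comp (Primrec.snd.comp t2) (Primrec.snd.comp t1)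
  · exact Primrec.eq.comp (Primrec.fst.comp t1) (Primrec.fst.comp t2)

theorem wp_decidable : ComputablePred (WordProblem ι) := by
  have : WPd = WordProblem ι := funext fun p => propext (wp_iff p)
  rw [← this]
  obtain ⟨h1, h2⟩ := WPd_primrec
  exact ⟨h1, h2.to_comp⟩

/-- There is a finitely generated tree-like inverse monoid with decidable word problem, all of
whose Schützenberger graphs are finite, for which rational subset membership, submonoid
membership, inverse submonoid membership and closed inverse submonoid membership are all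
undecidable. -/
theorem result : ∃ (M : Type) (_ : Monoid M) (ι : Letter Bool → M),
    IsInverseMonoid M ∧ Generates ι ∧ (∀ s, (Comp ι s).Finite) ∧ TreeLike ι ∧
    ComputablePred (WordProblem ι) ∧
    ¬ ComputablePred (RationalMem ι) ∧ ¬ ComputablePred (SubmonoidMem ι) ∧
    ¬ ComputablePred (InverseSubmonoidMem ι) ∧ ¬ ComputablePred (ClosedInverseSubmonoidMem ι) :=
  ⟨M, inferInstance, ι, isInverse, generates, comp_finite, treeLike, wp_decidable,
    rational_undec, sub_undec, inv_undec, closed_undec⟩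

end Pool.Agent.Results.MP_56939f_al.AllUndecidable
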